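import Mathlib

/-!
# A graph of girth at least seven over a field with `2 ^ m` elements, `m` odd
-/

set_option autoImplicit false

namespace Pool.Agent.G7.H49

/-- Vertices `(a, b, c, z)`. -/
abbrev Vt (F : Type) := F × F × F × F

variable {F : Type} [Field F]

/-- The graph: `(a, b, c, z)` and `(a', b', c', z')` are adjacent if `a ≠ a'`, `b' + c = a² a'`,
`b + c' = a a'²`, `z + z' = (a + a')⁵`. -/
def gr (F : Type) [Field F] : SimpleGraph (Vt F) where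
  Adj u v := u.1 ≠ v.1 ∧ v.2.1 + u.2.2.1 = u.1 ^ 2 * v.1 ∧ u.2.1 + v.2.2.1 = u.1 * v.1 ^ 2 ∧
    u.2.2.2 + v.2.2.2 = (u.1 + v.1) ^ 5
  symm := ⟨fun u v h => ⟨h.1.symm, by rw [h.2.2.1]; ring, by rw [h.2.1]; ring, by
    rw [add_comm, h.2.2.2, add_comm u.1]⟩⟩
  loopless := ⟨fun u h => h.1 rfl⟩

/-- Two neighbours of a vertex are distinguished by their first coordinate. -/
theorem fst_ne {u v w : Vt F} (h1 : (gr F).Adj u v) (h2 : (gr F).Adj v w) (hne : u ≠ w) :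
    u.1 ≠ w.1 := by
  intro he
  apply hne
  obtain ⟨a, b, c, z⟩ := u
  obtain ⟨a', b', c', z'⟩ := v
  obtain ⟨a'', b'', c'', z''⟩ := w
  obtain ⟨-, h3, h4, h5⟩ := h1
  obtain ⟨-, h6, h7, h8⟩ := h2
  simp only at he h3 h4 h5 h6 h7 h8
  subst he
  have e1 : b = b'' := by linear_combination h4 - h6
  have e2 : c = c'' := by linear_combination h3 - h7
  have e3 : z = z'' := by linear_combination h5 - h8
  rw [e1, e2, e3]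

theorem no3 [CharP F 2] {u v w : Vt F} (h1 : (gr F).Adj u v) (h2 : (gr F).Adj v w)
    (h3 : (gr F).Adj w u) : False := by
  obtain ⟨a1, b1, c1, z1⟩ := u
  obtain ⟨a2, b2, c2, z2⟩ := v
  obtain ⟨a3, b3, c3, z3⟩ := w
  obtain ⟨n1, p1, q1, -⟩ := h1
  obtain ⟨n2, p2, q2, -⟩ := h2
  obtain ⟨n3, p3, q3, -⟩ := h3
  simp only at n1 p1 q1 n2 p2 q2 n3 p3 q3
  have h2 : (2 : F) = 0 := CharTwo.two_eq_zero
  have e : (a1 - a2) * (a2 - a3) * (a3 - a1) = 0 := by grind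
  rcases mul_eq_zero.1 e with e | e
  · rcases mul_eq_zero.1 e with e | e
    · exact n1 (sub_eq_zero.1 e)
    · exact n2 (sub_eq_zero.1 e)
  · exact n3 (sub_eq_zero.1 e)

theorem no4 [CharP F 2] {u v w x : Vt F} (h1 : (gr F).Adj u v) (h2 : (gr F).Adj v w)
    (h3 : (gr F).Adj w x) (h4 : (gr F).Adj x u) (n13 : u ≠ w) (n24 : v ≠ x) : False := by
  have m13 := fst_ne h1 h2 n13
  have m24 := fst_ne h2 h3 n24
  obtain ⟨a1, b1, c1, z1⟩ := u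
  obtain ⟨a2, b2, c2, z2⟩ := v
  obtain ⟨a3, b3, c3, z3⟩ := w
  obtain ⟨a4, b4, c4, z4⟩ := x
  obtain ⟨-, p1, q1, -⟩ := h1
  obtain ⟨-, p2, q2, -⟩ := h2
  obtain ⟨-, p3, q3, -⟩ := h3
  obtain ⟨-, p4, q4, -⟩ := h4
  simp only at m13 m24 p1 q1 p2 q2 p3 q3 p4 q4
  have h2 : (2 : F) = 0 := CharTwo.two_eq_zero
  have e : (a1 - a3) ^ 2 * (a2 - a4) = 0 := by grind
  rcases mul_eq_zero.1 e with e | e
  · exact m13 (sub_eq_zero.1 (pow_eq_zero_iff (two_ne_zero) |>.1 e))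
  · exact m24 (sub_eq_zero.1 e)

theorem no5 [CharP F 2] {u v w x y : Vt F} (h1 : (gr F).Adj u v) (h2 : (gr F).Adj v w)
    (h3 : (gr F).Adj w x) (h4 : (gr F).Adj x y) (h5 : (gr F).Adj y u) : False := by
  obtain ⟨a1, b1, c1, z1⟩ := u
  obtain ⟨a2, b2, c2, z2⟩ := v
  obtain ⟨a3, b3, c3, z3⟩ := w
  obtain ⟨a4, b4, c4, z4⟩ := x
  obtain ⟨a5, b5, c5, z5⟩ := y
  obtain ⟨n1, p1, q1, r1⟩ := h1
  obtain ⟨n2, p2, q2, r2⟩ := h2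
  obtain ⟨n3, p3, q3, r3⟩ := h3
  obtain ⟨n4, p4, q4, r4⟩ := h4
  obtain ⟨n5, p5, q5, r5⟩ := h5
  simp only at n1 p1 q1 r1 n2 p2 q2 r2 n3 p3 q3 r3 n4 p4 q4 r4 n5 p5 q5 r5
  have h2 : (2 : F) = 0 := CharTwo.two_eq_zero
  have e3 : a1 ^ 2 * a2 + a1 * a2 ^ 2 + a2 ^ 2 * a3 + a2 * a3 ^ 2 + a3 ^ 2 * a4 + a3 * a4 ^ 2 +
      a4 ^ 2 * a5 + a4 * a5 ^ 2 + a5 ^ 2 * a1 + a5 * a1 ^ 2 = 0 := by grind
  have e5 : (a1 + a2) ^ 5 + (a2 + a3) ^ 5 + (a3 + a4) ^ 5 + (a4 + a5) ^ 5 + (a5 + a1) ^ 5 = 0 := by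
    linear_combination -r1 - r2 - r3 - r4 - r5 + (z1 + z2 + z3 + z4 + z5) * h2
  have e : (a1 - a2) * (a2 - a3) * (a3 - a4) * (a4 - a5) * (a5 - a1) = 0 := by
    clear p1 q1 r1 p2 q2 r2 p3 q3 r3 p4 q4 r4 p5 q5 r5 n1 n2 n3 n4 n5
    grind
  rcases mul_eq_zero.1 e with e | e
  · rcases mul_eq_zero.1 e with e | e
    · rcases mul_eq_zero.1 e with e | e
      · rcases mul_eq_zero.1 e with e | e
        · exact n1 (sub_eq_zero.1 e)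
        · exact n2 (sub_eq_zero.1 e)
      · exact n3 (sub_eq_zero.1 e)
    · exact n4 (sub_eq_zero.1 e)
  · exact n5 (sub_eq_zero.1 e)

theorem no6 [CharP F 2] (h3F : ∀ x : F, x ^ 3 = 1 → x = 1) {u v w x y t : Vt F}
    (h1 : (gr F).Adj u v) (h2 : (gr F).Adj v w) (h3 : (gr F).Adj w x) (h4 : (gr F).Adj x y)
    (h5 : (gr F).Adj y t) (h6 : (gr F).Adj t u) (n13 : u ≠ w) (n24 : v ≠ x) (n35 : w ≠ y)
    (n46 : x ≠ t) (n51 : y ≠ u) (n62 : t ≠ v) : False := by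
  have m13 := fst_ne h1 h2 n13
  have m24 := fst_ne h2 h3 n24
  have m35 := fst_ne h3 h4 n35
  have m46 := fst_ne h4 h5 n46
  have m51 := fst_ne h5 h6 n51
  have m62 := fst_ne h6 h1 n62
  obtain ⟨a1, b1, c1, z1⟩ := u
  obtain ⟨a2, b2, c2, z2⟩ := v
  obtain ⟨a3, b3, c3, z3⟩ := w
  obtain ⟨a4, b4, c4, z4⟩ := x
  obtain ⟨a5, b5, c5, z5⟩ := y
  obtain ⟨a6, b6, c6, z6⟩ := t
  obtain ⟨-, p1, q1, -⟩ := h1
  obtain ⟨-, p2, q2, -⟩ := h2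
  obtain ⟨-, p3, q3, -⟩ := h3
  obtain ⟨-, p4, q4, -⟩ := h4
  obtain ⟨-, p5, q5, -⟩ := h5
  obtain ⟨-, p6, q6, -⟩ := h6
  simp only at m13 m24 m35 m46 m51 m62 p1 q1 p2 q2 p3 q3 p4 q4 p5 q5 p6 q6
  have h2 : (2 : F) = 0 := CharTwo.two_eq_zero
  have hα : a1 - a3 ≠ 0 := sub_ne_zero.2 m13
  have hβ : a3 - a5 ≠ 0 := sub_ne_zero.2 m35
  have hu : a2 - a6 ≠ 0 := sub_ne_zero.2 m62.symm
  have E1 : (a1 - a3) ^ 2 * (a2 - a6) = (a3 - a5) ^ 2 * (a4 - a6) := by grind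
  have E2 : (a1 - a3) * (a2 - a6) ^ 2 = (a3 - a5) * (a4 - a6) ^ 2 := by grind
  have E3 : (a1 - a3) ^ 3 = (a3 - a5) ^ 3 := by
    have h7 : (a1 - a3) * (a2 - a6) ^ 2 * ((a1 - a3) ^ 3 - (a3 - a5) ^ 3) = 0 := by
      have h8 : ((a1 - a3) ^ 2 * (a2 - a6)) ^ 2 = ((a3 - a5) ^ 2 * (a4 - a6)) ^ 2 := by rw [E1]
      linear_combination h8 - (a3 - a5) ^ 3 * E2
    rcases mul_eq_zero.1 h7 with h7 | h7
    · exact absurd h7 (mul_ne_zero hα (pow_ne_zero _ hu))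
    · exact sub_eq_zero.1 h7
  have E4 : ((a1 - a3) / (a3 - a5)) ^ 3 = 1 := by
    rw [div_pow, E3, div_self (pow_ne_zero _ hβ)]
  have E5 := h3F _ E4
  rw [div_eq_one_iff_eq hβ] at E5
  apply m51
  linear_combination (a5 - a3) * h2 - E5

end Pool.Agent.G7.H49
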