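import Pool.Agent.Helper49_G7.Bil
import Pool.Agent.Helper49_G7.Gr

/-!
# Cuts of the graph
-/

set_option autoImplicit false

namespace Pool.Agent.G7.H49

open Finset

variable {F : Type} [Field F] [Fintype F] [DecidableEq F] [CharP F 2]

/-- the neighbour of `u` with first coordinate `a` (if `a` is not the first coordinate of `u`) -/
def nb (u : Vt F) (a : F) : Vt F :=
  (a, u.2.2.1 + u.1 ^ 2 * a, u.2.1 + u.1 * a ^ 2, u.2.2.2 + (u.1 + a) ^ 5)

omit [Fintype F] [DecidableEq F] in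
theorem adj_iff (u : Vt F) (a : F) (w : F × F × F) :
    (gr F).Adj u (a, w) ↔ u.1 ≠ a ∧ w = (nb u a).2 := by
  have h2 : (2 : F) = 0 := CharTwo.two_eq_zero
  obtain ⟨a0, b, c, z⟩ := u
  obtain ⟨b', c', z'⟩ := w
  constructor
  · rintro ⟨h1, h3, h4, h5⟩
    refine ⟨h1, Prod.ext ?_ (Prod.ext ?_ ?_)⟩
    · show b' = c + a0 ^ 2 * a
      have h3' : b' + c = a0 ^ 2 * a := h3
      linear_combination h3' - c * h2
    · show c' = b + a0 * a ^ 2
      have h4' : b + c' = a0 * a ^ 2 := h4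
      linear_combination h4' - b * h2
    · show z' = z + (a0 + a) ^ 5
      have h5' : z + z' = (a0 + a) ^ 5 := h5
      linear_combination h5' - z * h2
  · rintro ⟨h1, h3⟩
    have e1 : b' = c + a0 ^ 2 * a := congrArg Prod.fst h3
    have e2 : c' = b + a0 * a ^ 2 := congrArg (fun q : F × F × F => q.2.1) h3
    have e3 : z' = z + (a0 + a) ^ 5 := congrArg (fun q : F × F × F => q.2.2) h3
    refine ⟨h1, ?_, ?_, ?_⟩
    · show b' + c = a0 ^ 2 * a
      linear_combination e1 + c * h2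
    · show b + c' = a0 * a ^ 2
      linear_combination e2 + b * h2
    · show z + z' = (a0 + a) ^ 5
      linear_combination e3 + z * h2

open Classical in
/-- sums over the neighbours -/
theorem sum_adj (u : Vt F) (g : Vt F → ℝ) :
    ∑ v, (if (gr F).Adj u v then g v else 0) = ∑ a, if u.1 ≠ a then g (nb u a) else 0 := by
  rw [Fintype.sum_prod_type]
  refine Finset.sum_congr rfl fun a _ => ?_
  simp only [adj_iff]
  by_cases h : u.1 ≠ a
  · simp only [h, true_and, ne_eq, not_false_eq_true, if_true]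
    rw [Finset.sum_ite_eq' univ (nb u a).2 (fun w => g (a, w)), if_pos (mem_univ _)]
    rfl
  · simp only [h, false_and, if_false, Finset.sum_const_zero]

/-- the exchange of the two middle coordinates -/
def sw : (F × F × F) ≃ (F × F × F) where
  toFun w := (w.2.1, w.1, w.2.2)
  invFun w := (w.2.1, w.1, w.2.2)
  left_inv _ := rfl
  right_inv _ := rfl

theorem full_lower (t : TrChar F) (x : Vt F → ℝ) (hx : ∀ v, x v ^ 2 = 1) (Λ : ℝ)
    (hΛ : 0 < Λ) (hΛ2 : Λ ^ 2 = 16 * Fintype.card F) :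
    -Λ * (Fintype.card F : ℝ) ^ 4 ≤ ∑ u, ∑ a, x u * x (nb u a) := by
  have hX : (0 : ℝ) < Fintype.card F := by exact_mod_cast Fintype.card_pos
  have h0 : ∑ a : F, ∑ w : F × F × F, (x (a, w)) ^ 2 = (Fintype.card F : ℝ) ^ 4 := by
    simp only [hx, Finset.sum_const, card_univ, Fintype.card_prod, nsmul_eq_mul, mul_one]
    push_cast
    ring
  have h0' : ∑ a : F, ∑ w : F × F × F, (x (a, sw w)) ^ 2 = (Fintype.card F : ℝ) ^ 4 := by
    simp only [hx, Finset.sum_const, card_univ, Fintype.card_prod, nsmul_eq_mul, mul_one]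
    push_cast
    ring
  have hmain := main_lower (pair t) (by positivity) (fun a w => x (a, w))
    (fun a w => x (a, sw w)) (fun a b : F => (a * b ^ 2, a ^ 2 * b, (a + b) ^ 5)) Λ ?_
  · rw [h0, h0'] at hmain
    have h1 : ∑ a : F, ∑ b : F, ∑ w : F × F × F, x (a, w) *
        x (b, sw (w + (a * b ^ 2, a ^ 2 * b, (a + b) ^ 5))) = ∑ u, ∑ a, x u * x (nb u a) := by
      rw [Fintype.sum_prod_type]
      refine Finset.sum_congr rfl fun a _ => ?_
      rw [Finset.sum_comm]
      refine Finset.sum_congr rfl fun w _ => Finset.sum_congr rfl fun b _ => ?_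
      rfl
    rw [h1] at hmain
    linarith
  · rintro ⟨β, γ, ζ⟩
    by_cases h : β ≠ 0 ∨ γ ≠ 0 ∨ ζ ≠ 0
    · exact twisted_lower t h _ _ Λ hΛ hΛ2
    · push Not at h
      obtain ⟨rfl, rfl, rfl⟩ := h
      have hP : ∀ w, (pair t).P ((0, 0, 0) : F × F × F) w = 1 := by
        intro w
        show t.ψ (0 * w.1 + 0 * w.2.1 + 0 * w.2.2) = 1
        rw [zero_mul, zero_mul, zero_mul, add_zero, add_zero, t.zero]
      have h2 : ∀ y : F × F × F → ℝ, hat (pair t) y (0, 0, 0) = ∑ w, y w := by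
        intro y
        unfold hat
        refine Finset.sum_congr rfl fun w _ => ?_
        rw [hP, mul_one]
      simp only [hP, h2, mul_one]
      have h3 : ∀ a : F, ∑ w : F × F × F, x (a, sw w) = ∑ w, x (a, w) := fun a =>
        Equiv.sum_comp sw (fun w => x (a, w))
      simp only [h3]
      rw [← Finset.sum_mul_sum]
      have h4 : 0 ≤ Λ / 2 * (∑ a : F, (∑ w : F × F × F, x (a, w)) ^ 2 +
          ∑ a : F, (∑ w : F × F × F, x (a, w)) ^ 2) :=
        mul_nonneg (by positivity) (add_nonneg (Finset.sum_nonneg fun _ _ => sq_nonneg _)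
          (Finset.sum_nonneg fun _ _ => sq_nonneg _))
      have h5 := mul_self_nonneg (∑ a : F, ∑ w : F × F × F, x (a, w))
      linarith

open Classical in
theorem form_lower' (t : TrChar F) (x : Vt F → ℝ) (hx : ∀ v, x v = 1 ∨ x v = -1) (Λ : ℝ)
    (hΛ : 0 < Λ) (hΛ2 : Λ ^ 2 = 16 * Fintype.card F) :
    -(Λ + 1) * (Fintype.card F : ℝ) ^ 4 ≤
      ∑ u, ∑ v, (if (gr F).Adj u v then x u * x v else 0) := by
  have hsq : ∀ v, x v ^ 2 = 1 := by
    intro v
    rcases hx v with h | h <;> rw [h] <;> norm_num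
  have hprod : ∀ u v, x u * x v ≤ 1 := by
    intro u v
    rcases hx u with h | h <;> rcases hx v with h' | h' <;> rw [h, h'] <;> norm_num
  have h1 := full_lower t x hsq Λ hΛ hΛ2
  have h2 : ∑ u, ∑ v, (if (gr F).Adj u v then x u * x v else 0) =
      ∑ u, ∑ a, x u * x (nb u a) - ∑ u, x u * x (nb u u.1) := by
    rw [← Finset.sum_sub_distrib]
    refine Finset.sum_congr rfl fun u _ => ?_
    rw [sum_adj u (fun v => x u * x v)]
    have h3 : ∀ a, (if u.1 ≠ a then x u * x (nb u a) else 0) =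
        x u * x (nb u a) - if u.1 = a then x u * x (nb u a) else 0 := by
      intro a
      by_cases h : u.1 = a
      · rw [if_neg (not_not.2 h), if_pos h, sub_self]
      · rw [if_pos h, if_neg h, sub_zero]
    rw [Finset.sum_congr rfl fun a _ => h3 a, Finset.sum_sub_distrib,
      Finset.sum_ite_eq univ u.1, if_pos (mem_univ _)]
  have h3 : ∑ u, x u * x (nb u u.1) ≤ (Fintype.card F : ℝ) ^ 4 := by
    refine (Finset.sum_le_sum fun u _ => hprod u (nb u u.1)).trans ?_
    simp only [Finset.sum_const, card_univ, Fintype.card_prod, nsmul_eq_mul, mul_one]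
    push_cast
    exact le_of_eq (by ring)
  rw [h2]
  linarith

open Classical in
theorem ncard_sum {V : Type} [Fintype V] (P : V × V → Prop) :
    (({q : V × V | P q}.ncard : ℕ) : ℝ) = ∑ u, ∑ v, if P (u, v) then (1 : ℝ) else 0 := by
  have h1 : {q : V × V | P q} = ((univ.filter fun q => P q : Finset (V × V)) : Set (V × V)) := by
    ext q
    simp
  rw [h1, Set.ncard_coe_finset, Finset.card_filter, Fintype.sum_prod_type]
  push_cast
  rfl

theorem num_edges : (({q : Vt F × Vt F | (gr F).Adj q.1 q.2}.ncard : ℕ) : ℝ) =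
    (Fintype.card F : ℝ) ^ 4 * (Fintype.card F - 1) := by
  classical
  rw [ncard_sum]
  have h1 : ∀ u : Vt F, ∑ v, (if (gr F).Adj u v then (1 : ℝ) else 0) = Fintype.card F - 1 := by
    intro u
    rw [sum_adj u (fun _ => 1)]
    have h3 : ∀ a, (if u.1 ≠ a then (1 : ℝ) else 0) = 1 - if u.1 = a then 1 else 0 := by
      intro a
      by_cases h : u.1 = a
      · rw [if_neg (not_not.2 h), if_pos h, sub_self]
      · rw [if_pos h, if_neg h, sub_zero]
    rw [Finset.sum_congr rfl fun a _ => h3 a, Finset.sum_sub_distrib,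
      Finset.sum_ite_eq univ u.1, if_pos (mem_univ _), Finset.sum_const, card_univ, nsmul_eq_mul,
      mul_one]
  rw [Finset.sum_congr rfl fun u _ => h1 u, Finset.sum_const, card_univ, nsmul_eq_mul]
  simp only [Fintype.card_prod]
  push_cast
  ring

theorem cut_le (t : TrChar F) (Λ : ℝ) (hΛ : 0 < Λ) (hΛ2 : Λ ^ 2 = 16 * Fintype.card F)
    (S : Set (Vt F)) :
    (({q : Vt F × Vt F | q.1 ∈ S ∧ q.2 ∉ S ∧ (gr F).Adj q.1 q.2}.ncard : ℕ) : ℝ) ≤
      (Fintype.card F : ℝ) ^ 4 * (Fintype.card F - 1) / 4 +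
        (Λ + 1) / 4 * (Fintype.card F : ℝ) ^ 4 := by
  classical
  obtain ⟨x, hx⟩ : ∃ x : Vt F → ℝ, x = fun v => if v ∈ S then 1 else -1 := ⟨_, rfl⟩
  have hx1 : ∀ v ∈ S, x v = 1 := fun v hv => by rw [hx]; exact if_pos hv
  have hx2 : ∀ v, v ∉ S → x v = -1 := fun v hv => by rw [hx]; exact if_neg hv
  have hxv : ∀ v, x v = 1 ∨ x v = -1 := fun v => by
    by_cases h : v ∈ S
    · exact Or.inl (hx1 v h)
    · exact Or.inr (hx2 v h)
  have h1 := form_lower' t x hxv Λ hΛ hΛ2
  have h2 := num_edges (F := F)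
  rw [ncard_sum] at h2
  simp only at h2
  rw [ncard_sum]
  simp only
  -- the three double sums
  obtain ⟨c, hc⟩ : ∃ c : Vt F → Vt F → ℝ, c = fun u v =>
    if u ∈ S ∧ v ∉ S ∧ (gr F).Adj u v then 1 else 0 := ⟨_, rfl⟩
  have hc' : ∀ u v, c u v = if u ∈ S ∧ v ∉ S ∧ (gr F).Adj u v then 1 else 0 := fun u v => by
    rw [hc]
  have key : ∀ u v : Vt F, (if (gr F).Adj u v then (1 : ℝ) else 0) -
      (if (gr F).Adj u v then x u * x v else 0) = 2 * c u v + 2 * c v u := by
    intro u v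
    rw [hc', hc']
    by_cases ha : (gr F).Adj u v
    · have ha' := ha.symm
      by_cases hu : u ∈ S
      · by_cases hv : v ∈ S
        · simp [ha, hu, hv, hx1]
        · simp [ha, hu, hv, hx1, hx2]
          norm_num
      · by_cases hv : v ∈ S
        · simp [ha, ha', hu, hv, hx1, hx2]
          norm_num
        · simp [ha, hu, hv, hx2]
    · have ha' : ¬ (gr F).Adj v u := fun h => ha h.symm
      simp [ha, ha']
  have hsum : ∑ u, ∑ v, ((if (gr F).Adj u v then (1 : ℝ) else 0) -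
      (if (gr F).Adj u v then x u * x v else 0)) = 4 * ∑ u, ∑ v, c u v := by
    rw [Finset.sum_congr rfl fun u _ => Finset.sum_congr rfl fun v _ => key u v]
    simp only [Finset.sum_add_distrib, ← Finset.mul_sum]
    have h3 : ∑ u, ∑ v, c v u = ∑ u, ∑ v, c u v := Finset.sum_comm
    rw [h3]
    ring
  simp only [Finset.sum_sub_distrib] at hsum
  rw [h2] at hsum
  have h5 : ∑ u, ∑ v, c u v ≤ (Fintype.card F : ℝ) ^ 4 * (Fintype.card F - 1) / 4 +
      (Λ + 1) / 4 * (Fintype.card F : ℝ) ^ 4 := by linarith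
  refine le_trans (le_of_eq ?_) h5
  refine Finset.sum_congr rfl fun u _ => Finset.sum_congr rfl fun v _ => ?_
  rw [hc']
  by_cases hcond : u ∈ S ∧ v ∉ S ∧ (gr F).Adj u v
  · rw [if_pos hcond, if_pos hcond]
  · rw [if_neg hcond, if_neg hcond]

end Pool.Agent.G7.H49
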