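import Pool.Agent.Helper74_MC.AllM
import Pool.Agent.Helper49_G7.Cut
import Pool.Agent.Helper62_FIN

/-!
# From special numbers of edges to all numbers of edges, girth seven
-/

set_option autoImplicit false

namespace Pool.Agent.G7.H49

open Pool.Agent.MC.H74

/-- No cycles of length six. -/
def NoSix {V : Type} (G : SimpleGraph V) : Prop :=
  ∀ a b c d e f, G.Adj a b → G.Adj b c → G.Adj c d → G.Adj d e → G.Adj e f → G.Adj f a →
    a ≠ c → b ≠ d → c ≠ e → d ≠ f → e ≠ a → f ≠ b → False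

/-- There is a graph with `m` edges and girth at least seven, all cuts at most `m / 2 + K`. -/
def Good7 (m : ℕ) (K : ℝ) : Prop :=
  ∃ (V : Type) (_ : Fintype V) (G : SimpleGraph V), {q : V × V | G.Adj q.1 q.2}.ncard = 2 * m ∧
    NoShort G ∧ NoSix G ∧ CutLe G (m / 2 + K)

theorem sum_noSix {V W : Type} {G : SimpleGraph V} {H : SimpleGraph W} (hG : NoSix G)
    (hH : NoSix H) : NoSix (G ⊕g H) := by
  rintro (a | a) (b | b) (c | c) (d | d) (e | e) (f | f) h1 h2 h3 h4 h5 h6 n1 n2 n3 n4 n5 n6 <;>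
    simp only [SimpleGraph.sum_adj] at h1 h2 h3 h4 h5 h6
  · exact hG a b c d e f h1 h2 h3 h4 h5 h6 (fun h => n1 (by rw [h])) (fun h => n2 (by rw [h]))
      (fun h => n3 (by rw [h])) (fun h => n4 (by rw [h])) (fun h => n5 (by rw [h]))
      (fun h => n6 (by rw [h]))
  · exact hH a b c d e f h1 h2 h3 h4 h5 h6 (fun h => n1 (by rw [h])) (fun h => n2 (by rw [h]))
      (fun h => n3 (by rw [h])) (fun h => n4 (by rw [h])) (fun h => n5 (by rw [h]))
      (fun h => n6 (by rw [h]))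

theorem good7_add {m m' : ℕ} {K K' : ℝ} (h : Good7 m K) (h' : Good7 m' K') :
    Good7 (m + m') (K + K') := by
  classical
  obtain ⟨V, fV, G, hG, nG, nG6, cG⟩ := h
  obtain ⟨W, fW, H, hH, nH, nH6, cH⟩ := h'
  have inl2 : Function.Injective (fun q : V × V => ((Sum.inl q.1 : V ⊕ W), (Sum.inl q.2 : V ⊕ W))) := by
    rintro ⟨a, b⟩ ⟨c, d⟩ hh
    simp only [Prod.mk.injEq, Sum.inl.injEq] at hh
    exact Prod.ext hh.1 hh.2
  have inr2 : Function.Injective (fun q : W × W => ((Sum.inr q.1 : V ⊕ W), (Sum.inr q.2 : V ⊕ W))) := by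
    rintro ⟨a, b⟩ ⟨c, d⟩ hh
    simp only [Prod.mk.injEq, Sum.inr.injEq] at hh
    exact Prod.ext hh.1 hh.2
  refine ⟨V ⊕ W, inferInstance, G ⊕g H, ?_, sum_noShort nG nH, sum_noSix nG6 nH6, ?_⟩
  · have e : {q : (V ⊕ W) × (V ⊕ W) | (G ⊕g H).Adj q.1 q.2} =
        (fun q : V × V => ((Sum.inl q.1 : V ⊕ W), (Sum.inl q.2 : V ⊕ W))) ''
          {q : V × V | G.Adj q.1 q.2} ∪
        (fun q : W × W => ((Sum.inr q.1 : V ⊕ W), (Sum.inr q.2 : V ⊕ W))) ''
          {q : W × W | H.Adj q.1 q.2} := by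
      ext ⟨a, b⟩
      rcases a with a | a <;> rcases b with b | b <;>
        simp [SimpleGraph.sum_adj]
    rw [e, Set.ncard_union_eq, Set.ncard_image_of_injective _ inl2,
      Set.ncard_image_of_injective _ inr2, hG, hH, mul_add]
    · rw [Set.disjoint_left]
      rintro q ⟨x, _, rfl⟩ ⟨y, _, hy⟩
      simp only [Prod.mk.injEq] at hy
      exact absurd hy.1 (by simp)
  · intro S
    have e : {q : (V ⊕ W) × (V ⊕ W) | q.1 ∈ S ∧ q.2 ∉ S ∧ (G ⊕g H).Adj q.1 q.2} ⊆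
        (fun q : V × V => ((Sum.inl q.1 : V ⊕ W), (Sum.inl q.2 : V ⊕ W))) ''
          {q : V × V | q.1 ∈ Sum.inl ⁻¹' S ∧ q.2 ∉ Sum.inl ⁻¹' S ∧ G.Adj q.1 q.2} ∪
        (fun q : W × W => ((Sum.inr q.1 : V ⊕ W), (Sum.inr q.2 : V ⊕ W))) ''
          {q : W × W | q.1 ∈ Sum.inr ⁻¹' S ∧ q.2 ∉ Sum.inr ⁻¹' S ∧ H.Adj q.1 q.2} := by
      rintro ⟨a, b⟩ ⟨h1, h2, h3⟩
      rcases a with a | a <;> rcases b with b | b <;>
        simp only [SimpleGraph.sum_adj] at h3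
      · exact Or.inl ⟨(a, b), ⟨h1, h2, h3⟩, rfl⟩
      · exact Or.inr ⟨(a, b), ⟨h1, h2, h3⟩, rfl⟩
    have h1 := Set.ncard_le_ncard e (Set.toFinite _)
    have h2 := h1.trans (Set.ncard_union_le _ _)
    rw [Set.ncard_image_of_injective _ inl2, Set.ncard_image_of_injective _ inr2] at h2
    have h3 := cG (Sum.inl ⁻¹' S)
    have h4 := cH (Sum.inr ⁻¹' S)
    have h5 : (({q : (V ⊕ W) × (V ⊕ W) | q.1 ∈ S ∧ q.2 ∉ S ∧ (G ⊕g H).Adj q.1 q.2}.ncard : ℕ) : ℝ)
        ≤ (({q : V × V | q.1 ∈ Sum.inl ⁻¹' S ∧ q.2 ∉ Sum.inl ⁻¹' S ∧ G.Adj q.1 q.2}.ncard : ℕ) : ℝ)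
        + (({q : W × W | q.1 ∈ Sum.inr ⁻¹' S ∧ q.2 ∉ Sum.inr ⁻¹' S ∧ H.Adj q.1 q.2}.ncard : ℕ) :
          ℝ) := by
      exact_mod_cast h2
    push_cast
    linarith

theorem good7_mono {m : ℕ} {K K' : ℝ} (h : Good7 m K) (hK : K ≤ K') : Good7 m K' := by
  obtain ⟨V, fV, G, hG, nG, nG6, cG⟩ := h
  exact ⟨V, fV, G, hG, nG, nG6, fun S => (cG S).trans (by linarith)⟩

theorem good7_zero : Good7 0 0 := by
  refine ⟨PEmpty, inferInstance, ⊥, ?_, ?_, ?_, ?_⟩
  · simp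
  · exact ⟨fun a => a.elim, fun a => a.elim, fun a => a.elim⟩
  · exact fun a => a.elim
  · intro S
    simp

theorem good7_one : Good7 1 (1 / 2) := by
  refine ⟨Bool, inferInstance, ⊤, ?_, ?_, ?_, ?_⟩
  · have : {q : Bool × Bool | (⊤ : SimpleGraph Bool).Adj q.1 q.2} =
        (({(true, false), (false, true)} : Finset (Bool × Bool)) : Set (Bool × Bool)) := by
      ext ⟨a, b⟩
      cases a <;> cases b <;> simp
    rw [this, Set.ncard_coe_finset]
    rfl
  · refine ⟨?_, ?_, ?_⟩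
    · intro a b c h1 h2 h3
      simp only [SimpleGraph.top_adj] at h1 h2 h3
      cases a <;> cases b <;> cases c <;> simp_all
    · intro a b c d h1 h2 h3 h4 n1 n2
      simp only [SimpleGraph.top_adj] at h1 h2 h3
      cases a <;> cases b <;> cases c <;> simp_all
    · intro a b c d e h1 h2 h3 h4 h5 n1 n2 n3 n4 n5
      simp only [SimpleGraph.top_adj] at h1 h2 h3
      cases a <;> cases b <;> cases c <;> simp_all
  · intro a b c d e f h1 h2 h3 h4 h5 h6 n1 n2 n3 n4 n5 n6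
    simp only [SimpleGraph.top_adj] at h1 h2 h3
    cases a <;> cases b <;> cases c <;> simp_all
  · intro S
    have h2 : {q : Bool × Bool | q.1 ∈ S ∧ q.2 ∉ S ∧ (⊤ : SimpleGraph Bool).Adj q.1 q.2}.ncard ≤ 1 := by
      rw [Set.ncard_le_one_iff]
      rintro ⟨a, b⟩ ⟨c, d⟩ ⟨h1, h2, h3⟩ ⟨h4, h5, h6⟩
      cases a <;> cases b <;> cases c <;> cases d <;> simp_all
    calc _ ≤ ((1 : ℕ) : ℝ) := by exact_mod_cast h2
      _ ≤ _ := by norm_num

theorem good7_triv (m : ℕ) : Good7 m (m / 2) := by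
  induction m with
  | zero => simpa using good7_zero
  | succ m ih =>
    have := good7_add ih good7_one
    refine good7_mono this ?_
    push_cast
    linarith

/-- From numbers of edges in every interval `[δ m, m]` to all numbers of edges. -/
theorem all7 (θ δ C : ℝ) (m0 : ℕ) (hθ : 0 < θ) (hδ0 : 0 < δ) (hδ1 : δ < 1) (hC : 0 < C)
    (H : ∀ m : ℕ, m0 ≤ m → ∃ e : ℕ, 0 < e ∧ e ≤ m ∧ δ * m ≤ e ∧ Good7 e (C * (m : ℝ) ^ θ)) :
    ∃ c' : ℝ, 0 < c' ∧ ∀ m : ℕ, Good7 m (c' * (m : ℝ) ^ θ) := by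
  obtain ⟨ρ, hρ⟩ : ∃ ρ : ℝ, ρ = (1 - δ) ^ θ := ⟨_, rfl⟩
  have hρ1 : ρ < 1 := by
    rw [hρ]
    exact Real.rpow_lt_one (by linarith) (by linarith) hθ
  obtain ⟨c', hc'⟩ : ∃ c' : ℝ, c' = C / (1 - ρ) + (m0 : ℝ) := ⟨_, rfl⟩
  have hCρ : 0 < C / (1 - ρ) := div_pos hC (by linarith)
  have hm00 : (0 : ℝ) ≤ m0 := Nat.cast_nonneg _
  have hc'0 : 0 < c' := by
    rw [hc']
    positivity
  have hc'1 : (m0 : ℝ) ≤ c' := by
    rw [hc']
    linarith
  have hc'2 : C ≤ c' * (1 - ρ) := by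
    have : C / (1 - ρ) ≤ c' := by
      rw [hc']
      linarith
    rwa [div_le_iff₀ (by linarith)] at this
  refine ⟨c', hc'0, ?_⟩
  intro m
  induction m using Nat.strong_induction_on with
  | _ m ih =>
    by_cases hm : m < m0
    · refine good7_mono (good7_triv m) ?_
      rcases Nat.eq_zero_or_pos m with h0 | h0
      · subst h0
        simp [Real.zero_rpow hθ.ne']
      · have h1 : (1 : ℝ) ≤ (m : ℝ) ^ θ := Real.one_le_rpow (by exact_mod_cast h0) hθ.le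
        have h2 : (m : ℝ) ≤ m0 := by exact_mod_cast hm.le
        have h3 : (m : ℝ) ≤ c' := h2.trans hc'1
        have h4 : c' * 1 ≤ c' * (m : ℝ) ^ θ := mul_le_mul_of_nonneg_left h1 hc'0.le
        have h5 : (0 : ℝ) ≤ m := Nat.cast_nonneg _
        linarith
    · push Not at hm
      obtain ⟨e, he0, hem', hδe, he⟩ := H m hm
      have hem : (e : ℝ) ≤ m := by exact_mod_cast hem'
      have hm0 : (0 : ℝ) < m := by
        have : 0 < m := by omega
        exact_mod_cast this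
      have h1 := good7_add he (ih (m - e) (by omega))
      have h2 : e + (m - e) = m := by omega
      rw [h2] at h1
      refine good7_mono h1 ?_
      have h3 : ((m - e : ℕ) : ℝ) ≤ (1 - δ) * m := by
        rw [Nat.cast_sub hem']
        linarith
      have h4 : ((m - e : ℕ) : ℝ) ^ θ ≤ ρ * (m : ℝ) ^ θ := by
        rw [hρ, ← Real.mul_rpow (by linarith) hm0.le]
        exact Real.rpow_le_rpow (Nat.cast_nonneg _) h3 hθ.le
      have h7 : 0 ≤ (m : ℝ) ^ θ := by positivity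
      calc C * (m : ℝ) ^ θ + c' * ((m - e : ℕ) : ℝ) ^ θ
          ≤ C * (m : ℝ) ^ θ + c' * (ρ * (m : ℝ) ^ θ) :=
            add_le_add le_rfl (mul_le_mul_of_nonneg_left h4 hc'0.le)
        _ = (C + c' * ρ) * (m : ℝ) ^ θ := by ring
        _ ≤ c' * (m : ℝ) ^ θ := by
            apply mul_le_mul_of_nonneg_right _ h7
            linarith

/-! ### The graphs -/

theorem two_pow_mod (k : ℕ) : ∃ j, 2 ^ (2 * k + 1) = 3 * j + 2 := by
  induction k with
  | zero => exact ⟨0, by norm_num⟩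
  | succ k ih =>
    obtain ⟨j, hj⟩ := ih
    refine ⟨4 * j + 2, ?_⟩
    have e : 2 ^ (2 * (k + 1) + 1) = 4 * 2 ^ (2 * k + 1) := by ring
    rw [e, hj]
    ring

theorem no_cube_root (n : ℕ) (hn : Odd n) {F : Type} [Field F] [Fintype F]
    (hF : Fintype.card F = 2 ^ n) (x : F) (hx : x ^ 3 = 1) : x = 1 := by
  have hx0 : x ≠ 0 := by
    rintro rfl
    norm_num at hx
  have h1 := FiniteField.pow_card_sub_one_eq_one x hx0
  rw [hF] at h1
  obtain ⟨k, rfl⟩ := hn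
  have h2 : ∃ j, 2 ^ (2 * k + 1) - 1 = 3 * j + 1 := by
    obtain ⟨j, hj⟩ := two_pow_mod k
    exact ⟨j, by omega⟩
  obtain ⟨j, hj⟩ := h2
  rw [hj, pow_succ, pow_mul, hx, one_pow, one_mul] at h1
  exact h1

/-- the special numbers of edges -/
def ed (k : ℕ) : ℕ := (2 ^ (2 * k + 1)) ^ 4 * (2 ^ (2 * k + 1) - 1) / 2

theorem two_ed (k : ℕ) : 2 * ed k = (2 ^ (2 * k + 1)) ^ 4 * (2 ^ (2 * k + 1) - 1) := by
  unfold ed
  refine Nat.mul_div_cancel' ?_
  refine Dvd.dvd.mul_right ?_ _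
  exact dvd_pow (dvd_pow_self 2 (by omega)) (by norm_num)

theorem good_ed (k : ℕ) : Good7 (ed k) (2 * (2 ^ (2 * k + 1) : ℝ) ^ ((9 : ℝ) / 2)) := by
  classical
  have : Fact (Nat.Prime 2) := ⟨Nat.prime_two⟩
  let F := GaloisField 2 (2 * k + 1)
  let _ : Fintype F := Fintype.ofFinite F
  have : CharP F 2 := inferInstance
  have hcard : Fintype.card F = 2 ^ (2 * k + 1) := by
    rw [← Nat.card_eq_fintype_card]
    exact GaloisField.card 2 (2 * k + 1) (by omega)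
  obtain ⟨q, hq⟩ : ∃ q : ℝ, q = (Fintype.card F : ℝ) := ⟨_, rfl⟩
  have hq' : q = 2 ^ (2 * k + 1) := by
    rw [hq, hcard]
    push_cast
    rfl
  have hq2 : 2 ≤ q := by
    rw [hq']
    calc (2 : ℝ) = 2 ^ 1 := by norm_num
      _ ≤ _ := pow_le_pow_right₀ (by norm_num) (by omega)
  have hedge := num_edges (F := F)
  rw [← hq] at hedge
  have hed : (({q : Vt F × Vt F | (gr F).Adj q.1 q.2}.ncard : ℕ) : ℝ) = ((2 * ed k : ℕ) : ℝ) := by
    rw [hedge, two_ed, Nat.cast_mul, Nat.cast_sub Nat.one_le_two_pow, hq']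
    push_cast
    ring
  have hed' : {q : Vt F × Vt F | (gr F).Adj q.1 q.2}.ncard = 2 * ed k := by exact_mod_cast hed
  have h3 := no_cube_root (2 * k + 1) ⟨k, rfl⟩ hcard
  refine ⟨Vt F, inferInstance, gr F, hed', ⟨?_, ?_, ?_⟩, ?_, ?_⟩
  · intro a b c h1 h2 h3
    exact no3 h1 h2 h3
  · intro a b c d h1 h2 h3 h4 n1 n2
    exact no4 h1 h2 h3 h4 n1 n2
  · intro a b c d e h1 h2 h3 h4 h5 n1 n2 n3 n4 n5
    exact no5 h1 h2 h3 h4 h5
  · intro a b c d e f h1 h2 h3' h4 h5 h6 n1 n2 n3 n4 n5 n6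
    exact no6 h3 h1 h2 h3' h4 h5 h6 n1 n2 n3 n4 n5 n6
  · intro S
    obtain ⟨t⟩ := exists_trChar F
    have hs0 : 0 < Real.sqrt q := Real.sqrt_pos.2 (by linarith)
    have hs1 : 1 ≤ Real.sqrt q := by
      rw [← Real.sqrt_one]
      exact Real.sqrt_le_sqrt (by linarith)
    have hcut := cut_le t (4 * Real.sqrt q) (by positivity) (by
      rw [← hq, mul_pow, Real.sq_sqrt (by linarith)]
      norm_num) S
    rw [← hq] at hcut
    refine hcut.trans ?_
    have e1 : ((ed k : ℕ) : ℝ) / 2 = q ^ 4 * (q - 1) / 4 := by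
      have h5 := hed
      rw [hedge] at h5
      push_cast at h5
      linarith
    have e2 : (2 ^ (2 * k + 1) : ℝ) ^ ((9 : ℝ) / 2) = q ^ 4 * Real.sqrt q := by
      rw [← hq', Real.sqrt_eq_rpow, ← Real.rpow_natCast q 4, ← Real.rpow_add (by linarith)]
      norm_num
    rw [e1, e2]
    have h6 : (4 * Real.sqrt q + 1) / 4 ≤ 2 * Real.sqrt q := by linarith
    have h7 := mul_le_mul_of_nonneg_right h6 (by positivity : 0 ≤ q ^ 4)
    linarith

theorem ed_lower (k : ℕ) : ((2 : ℝ) ^ (2 * k + 1)) ^ 5 ≤ 4 * (ed k : ℝ) := by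
  have h1 : ((2 * ed k : ℕ) : ℝ) = ((2 : ℝ) ^ (2 * k + 1)) ^ 4 * ((2 : ℝ) ^ (2 * k + 1) - 1) := by
    rw [two_ed, Nat.cast_mul, Nat.cast_sub Nat.one_le_two_pow]
    push_cast
    ring
  have h2 : (2 : ℝ) ≤ (2 : ℝ) ^ (2 * k + 1) := by
    calc (2 : ℝ) = 2 ^ 1 := by norm_num
      _ ≤ _ := pow_le_pow_right₀ (by norm_num) (by omega)
  obtain ⟨q, hq⟩ : ∃ q : ℝ, q = (2 : ℝ) ^ (2 * k + 1) := ⟨_, rfl⟩
  rw [← hq] at h1 h2 ⊢
  push_cast at h1
  have h3 : 0 ≤ q ^ 4 := by positivity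
  have h4 : q ^ 5 = q ^ 4 * q := by ring
  nlinarith [mul_nonneg h3 (by linarith : 0 ≤ q - 2)]

theorem ed_upper (k : ℕ) : 2 * (ed k : ℝ) ≤ ((2 : ℝ) ^ (2 * k + 1)) ^ 5 := by
  have h1 : ((2 * ed k : ℕ) : ℝ) = ((2 : ℝ) ^ (2 * k + 1)) ^ 4 * ((2 : ℝ) ^ (2 * k + 1) - 1) := by
    rw [two_ed, Nat.cast_mul, Nat.cast_sub Nat.one_le_two_pow]
    push_cast
    ring
  obtain ⟨q, hq⟩ : ∃ q : ℝ, q = (2 : ℝ) ^ (2 * k + 1) := ⟨_, rfl⟩
  rw [← hq] at h1 ⊢
  push_cast at h1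
  have h3 : 0 ≤ q ^ 4 := by rw [hq]; positivity
  have h4 : q ^ 5 = q ^ 4 * q := by ring
  linarith

theorem all_m7 : ∃ c' : ℝ, 0 < c' ∧ ∀ m : ℕ, Good7 m (c' * (m : ℝ) ^ ((9 : ℝ) / 10)) := by
  refine all7 (9 / 10) (1 / 2048) 8 8 (by norm_num) (by norm_num) (by norm_num) (by norm_num) ?_
  intro m hm
  -- the scale
  have hex : ∃ k, m < ed (k + 1) := by
    refine ⟨m, ?_⟩
    have h1 := ed_lower (m + 1)
    have h2 : (m : ℝ) < (2 : ℝ) ^ m := by exact_mod_cast Nat.lt_two_pow_self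
    have h3 : (4 : ℝ) * 2 ^ m ≤ ((2 : ℝ) ^ (2 * (m + 1) + 1)) ^ 5 := by
      rw [← pow_mul]
      calc (4 : ℝ) * 2 ^ m = 2 ^ (m + 2) := by ring
        _ ≤ _ := pow_le_pow_right₀ (by norm_num) (by omega)
    have h4 : (m : ℝ) < (ed (m + 1) : ℝ) := by linarith
    exact_mod_cast h4
  classical
  obtain ⟨k, hk⟩ : ∃ k, k = Nat.find hex := ⟨_, rfl⟩
  have hk1 : m < ed (k + 1) := by
    rw [hk]
    exact Nat.find_spec hex
  have hk2 : ed k ≤ m := by
    rcases Nat.eq_zero_or_pos k with h0 | h0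
    · rw [h0]
      refine le_trans ?_ hm
      unfold ed
      norm_num
    · have h1 := Nat.find_min hex (m := k - 1) (by omega)
      rw [Nat.sub_add_cancel h0] at h1
      omega
  have hq : (0 : ℝ) < (2 : ℝ) ^ (2 * k + 1) := by positivity
  have h1 := ed_lower k
  have h2 := ed_upper (k + 1)
  have h3 : ((2 : ℝ) ^ (2 * (k + 1) + 1)) ^ 5 = 1024 * ((2 : ℝ) ^ (2 * k + 1)) ^ 5 := by
    have e : (2 : ℝ) ^ (2 * (k + 1) + 1) = 4 * 2 ^ (2 * k + 1) := by ring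
    rw [e, mul_pow]
    norm_num
  have h4 : (m : ℝ) < ed (k + 1) := by exact_mod_cast hk1
  have hkm : (ed k : ℝ) ≤ m := by exact_mod_cast hk2
  have hpos : (0 : ℝ) < ed k := by
    have : (0 : ℝ) < ((2 : ℝ) ^ (2 * k + 1)) ^ 5 := by positivity
    linarith
  refine ⟨ed k, by exact_mod_cast hpos, hk2, by linarith, ?_⟩
  refine good7_mono (good_ed k) ?_
  have h5 : (2 ^ (2 * k + 1) : ℝ) ^ ((9 : ℝ) / 2) = (((2 : ℝ) ^ (2 * k + 1)) ^ 5) ^ ((9 : ℝ) / 10) := by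
    rw [← Real.rpow_natCast ((2 : ℝ) ^ (2 * k + 1)) 5, ← Real.rpow_mul hq.le]
    norm_num
  have h6 : (((2 : ℝ) ^ (2 * k + 1)) ^ 5) ^ ((9 : ℝ) / 10) ≤ (4 * (m : ℝ)) ^ ((9 : ℝ) / 10) :=
    Real.rpow_le_rpow (by positivity) (by linarith) (by norm_num)
  have h7 : (4 * (m : ℝ)) ^ ((9 : ℝ) / 10) ≤ 4 * (m : ℝ) ^ ((9 : ℝ) / 10) := by
    rw [Real.mul_rpow (by norm_num) (Nat.cast_nonneg m)]
    apply mul_le_mul_of_nonneg_right _ (by positivity)
    calc (4 : ℝ) ^ ((9 : ℝ) / 10) ≤ 4 ^ (1 : ℝ) :=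
          Real.rpow_le_rpow_of_exponent_le (by norm_num) (by norm_num)
      _ = 4 := Real.rpow_one 4
  rw [h5]
  linarith

/-! ### Transfer to `Fin n` -/

theorem seven_le_egirth {V : Type} (G : SimpleGraph V) (h : NoShort G) (h6 : NoSix G) :
    (7 : ℕ∞) ≤ G.egirth := by
  rw [SimpleGraph.le_egirth]
  intro a w hw
  by_contra hlt
  push Not at hlt
  have h7 : w.length ≤ 6 := by
    have : (w.length : ℕ∞) < ((7 : ℕ) : ℕ∞) := hlt
    have := ENat.natCast_lt_natCast.1 this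
    omega
  by_cases h5 : w.length = 6
  · have hinj := hw.getVert_injOn
    have hadj : ∀ i, i < w.length → G.Adj (w.getVert i) (w.getVert (i + 1)) :=
      fun i hi => w.adj_getVert_succ hi
    have h0 : w.getVert 0 = a := w.getVert_zero
    have hl : w.getVert w.length = a := w.getVert_length
    have hne : ∀ i j, 1 ≤ i → i ≤ w.length → 1 ≤ j → j ≤ w.length → i ≠ j →
        w.getVert i ≠ w.getVert j := by
      intro i j h1 h2 h3 h4 hij he
      exact hij (hinj ⟨h1, h2⟩ ⟨h3, h4⟩ he)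
    rw [h5] at hadj hne hl
    refine h6 a (w.getVert 1) (w.getVert 2) (w.getVert 3) (w.getVert 4) (w.getVert 5) ?_
      (hadj 1 (by norm_num)) (hadj 2 (by norm_num)) (hadj 3 (by norm_num)) (hadj 4 (by norm_num)) ?_
      ?_ (hne 1 3 (by norm_num) (by norm_num) (by norm_num) (by norm_num) (by norm_num))
      (hne 2 4 (by norm_num) (by norm_num) (by norm_num) (by norm_num) (by norm_num))
      (hne 3 5 (by norm_num) (by norm_num) (by norm_num) (by norm_num) (by norm_num)) ?_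
      (hne 5 1 (by norm_num) (by norm_num) (by norm_num) (by norm_num) (by norm_num))
    · have := hadj 0 (by norm_num)
      rwa [h0] at this
    · have := hadj 5 (by norm_num)
      rwa [hl] at this
    · exact fun h => hne 6 2 (by norm_num) (by norm_num) (by norm_num) (by norm_num)
        (by norm_num) (hl.trans h)
    · exact fun h => hne 4 6 (by norm_num) (by norm_num) (by norm_num) (by norm_num)
        (by norm_num) (h.trans hl.symm)
  · have h8 := Pool.Agent.Helper62FIN.six_le_egirth G h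
    rw [SimpleGraph.le_egirth] at h8
    have h9 : ((6 : ℕ) : ℕ∞) ≤ (w.length : ℕ∞) := h8 a w hw
    have := ENat.natCast_le_natCast.1 h9
    omega

theorem fin7 {m : ℕ} {K : ℝ} (h : Good7 m K) :
    ∃ (n : ℕ) (G : SimpleGraph (Fin n)), G.edgeSet.ncard = m ∧ (7 : ℕ∞) ≤ G.egirth ∧
      ∀ S : Set (Fin n),
        (({q : Fin n × Fin n | q.1 ∈ S ∧ q.2 ∉ S ∧ G.Adj q.1 q.2}.ncard : ℕ) : ℝ) ≤ m / 2 + K := by
  classical
  obtain ⟨V, hV, G, hm, hns, hn6, hcut⟩ := h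
  let e : V ≃ Fin (Fintype.card V) := Fintype.equivFin V
  let G' : SimpleGraph (Fin (Fintype.card V)) := G.comap e.symm
  refine ⟨Fintype.card V, G', ?_, ?_, ?_⟩
  · have h1 := Pool.Agent.Helper62FIN.ncard_pairs G'
    have h2 : {q : Fin (Fintype.card V) × Fin (Fintype.card V) | G'.Adj q.1 q.2}.ncard =
        {q : V × V | G.Adj q.1 q.2}.ncard := by
      apply Set.ncard_congr (fun q _ => (e.symm q.1, e.symm q.2))
      · intro q hq
        exact hq
      · intro q q' _ _ hqq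
        have := Prod.ext_iff.1 hqq
        exact Prod.ext (e.symm.injective this.1) (e.symm.injective this.2)
      · intro q hq
        refine ⟨(e q.1, e q.2), ?_, ?_⟩
        · show G.Adj (e.symm (e q.1)) (e.symm (e q.2))
          simpa using hq
        · simp
    rw [h2, hm] at h1
    omega
  · obtain ⟨H3, H4, H5⟩ := hns
    refine seven_le_egirth _ ⟨?_, ?_, ?_⟩ ?_
    · intro a b c h1 h2 h3
      exact H3 _ _ _ h1 h2 h3
    · intro a b c d h1 h2 h3 h4 n1 n2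
      exact H4 _ _ _ _ h1 h2 h3 h4 (fun h => n1 (e.symm.injective h))
        (fun h => n2 (e.symm.injective h))
    · intro a b c d f h1 h2 h3 h4 h5 n1 n2 n3 n4 n5
      exact H5 _ _ _ _ _ h1 h2 h3 h4 h5 (fun h => n1 (e.symm.injective h))
        (fun h => n2 (e.symm.injective h)) (fun h => n3 (e.symm.injective h))
        (fun h => n4 (e.symm.injective h)) (fun h => n5 (e.symm.injective h))
    · intro a b c d f g h1 h2 h3 h4 h5 h6 n1 n2 n3 n4 n5 n6
      exact hn6 _ _ _ _ _ _ h1 h2 h3 h4 h5 h6 (fun h => n1 (e.symm.injective h))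
        (fun h => n2 (e.symm.injective h)) (fun h => n3 (e.symm.injective h))
        (fun h => n4 (e.symm.injective h)) (fun h => n5 (e.symm.injective h))
        (fun h => n6 (e.symm.injective h))
  · intro S
    have h1 := hcut (e.symm '' S)
    have h2 : {q : Fin (Fintype.card V) × Fin (Fintype.card V) |
        q.1 ∈ S ∧ q.2 ∉ S ∧ G'.Adj q.1 q.2}.ncard =
        {q : V × V | q.1 ∈ e.symm '' S ∧ q.2 ∉ e.symm '' S ∧ G.Adj q.1 q.2}.ncard := by
      apply Set.ncard_congr (fun q _ => (e.symm q.1, e.symm q.2))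
      · rintro q ⟨q1, q2, q3⟩
        refine ⟨⟨q.1, q1, rfl⟩, ?_, q3⟩
        rintro ⟨z, hz, hz'⟩
        exact q2 (e.symm.injective hz' ▸ hz)
      · intro q q' _ _ hqq
        have := Prod.ext_iff.1 hqq
        exact Prod.ext (e.symm.injective this.1) (e.symm.injective this.2)
      · rintro q ⟨⟨z, hz, hz'⟩, q2, q3⟩
        refine ⟨(e q.1, e q.2), ⟨?_, ?_, ?_⟩, ?_⟩
        · rw [← hz']
          simpa using hz
        · intro h
          exact q2 ⟨e q.2, h, by simp⟩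
        · show G.Adj (e.symm (e q.1)) (e.symm (e q.2))
          simpa using q3
        · simp
    rw [h2]
    exact h1

end Pool.Agent.G7.H49
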