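import Mathlib

/-!
# A lower bound for a sum of correlations over a group of exponent two
-/

set_option autoImplicit false

namespace Pool.Agent.G7.H49

open Finset

variable {X W I : Type} [Fintype X] [Fintype W] [Fintype I] [AddCommGroup W] [DecidableEq W]

/-- A pairing of `X` (the characters) with `W`. -/
structure Pairing (X W : Type) [Fintype X] [Fintype W] [AddCommGroup W] [DecidableEq W] where
  P : X → W → ℝ
  add : ∀ χ v w, P χ (v + w) = P χ v * P χ w
  sum : ∀ w, ∑ χ, P χ w = if w = 0 then (Fintype.card X : ℝ) else 0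
  two : ∀ w : W, w + w = 0

/-- the transform -/
def hat (p : Pairing X W) (x : W → ℝ) (χ : X) : ℝ := ∑ w, x w * p.P χ w

theorem corr (p : Pairing X W) (x y : W → ℝ) (τ : W) :
    ∑ χ, hat p x χ * hat p y χ * p.P χ τ = Fintype.card X * ∑ w, x w * y (w + τ) := by
  have h1 : ∀ χ, hat p x χ * hat p y χ * p.P χ τ =
      ∑ v, ∑ w, x v * y w * p.P χ (v + w + τ) := by
    intro χ
    unfold hat
    rw [Finset.sum_mul_sum, Finset.sum_mul]
    refine Finset.sum_congr rfl fun v _ => ?_
    rw [Finset.sum_mul]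
    refine Finset.sum_congr rfl fun w _ => ?_
    rw [p.add, p.add]
    ring
  rw [Finset.sum_congr rfl fun χ _ => h1 χ, Finset.sum_comm, Finset.mul_sum]
  refine Finset.sum_congr rfl fun v _ => ?_
  rw [Finset.sum_comm]
  have h2 : ∀ w, ∑ χ, x v * y w * p.P χ (v + w + τ) =
      if w = v + τ then Fintype.card X * (x v * y w) else 0 := by
    intro w
    rw [← Finset.mul_sum, p.sum]
    have h3 : (v + w + τ = 0) ↔ (w = v + τ) := by
      constructor
      · intro h
        have h4 : w = v + w + τ + (v + τ) := by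
          have e1 := p.two v
          have e2 := p.two τ
          calc w = (v + v) + (τ + τ) + w := by rw [e1, e2, zero_add, zero_add]
            _ = v + w + τ + (v + τ) := by abel
        rw [h4, h, zero_add]
      · intro h
        rw [h]
        have e1 := p.two v
        have e2 := p.two τ
        calc v + (v + τ) + τ = (v + v) + (τ + τ) := by abel
          _ = 0 := by rw [e1, e2, zero_add]
    by_cases h : w = v + τ
    · rw [if_pos h, if_pos (h3.2 h)]
      ring
    · rw [if_neg h, if_neg (fun h5 => h (h3.1 h5)), mul_zero]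
  rw [Finset.sum_congr rfl fun w _ => h2 w, Finset.sum_ite_eq' univ (v + τ),
    if_pos (mem_univ _)]

theorem parseval (p : Pairing X W) (x : W → ℝ) :
    ∑ χ, (hat p x χ) ^ 2 = Fintype.card X * ∑ w, (x w) ^ 2 := by
  have h1 := corr p x x 0
  have h2 : ∀ χ, p.P χ 0 = 1 ∨ hat p x χ = 0 := by
    intro χ
    by_cases h : p.P χ 0 = 0
    · right
      unfold hat
      refine Finset.sum_eq_zero fun w _ => ?_
      have h3 := p.add χ w 0
      rw [add_zero, h, mul_zero] at h3
      rw [h3, mul_zero]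
    · left
      have h3 := p.add χ 0 0
      rw [add_zero] at h3
      have h4 : p.P χ 0 * (p.P χ 0 - 1) = 0 := by linear_combination -h3
      rcases mul_eq_zero.1 h4 with h5 | h5
      · exact absurd h5 h
      · linarith
  have h3 : ∀ χ, (hat p x χ) ^ 2 = hat p x χ * hat p x χ * p.P χ 0 := by
    intro χ
    rcases h2 χ with h | h
    · rw [h]; ring
    · rw [h]; ring
  rw [Finset.sum_congr rfl fun χ _ => h3 χ, h1]
  congr 1
  refine Finset.sum_congr rfl fun w _ => ?_
  rw [add_zero]
  ring

/-- The main lower bound: if all the twisted forms are bounded below, so is the sum of correlations. -/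
theorem main_lower (p : Pairing X W) (hX : 0 < Fintype.card X) (x y : I → W → ℝ)
    (τ : I → I → W) (Λ : ℝ)
    (h : ∀ χ, -(Λ / 2) * (∑ a, (hat p (x a) χ) ^ 2 + ∑ a, (hat p (y a) χ) ^ 2) ≤
      ∑ a, ∑ b, hat p (x a) χ * hat p (y b) χ * p.P χ (τ a b)) :
    -(Λ / 2) * (∑ a, ∑ w, (x a w) ^ 2 + ∑ a, ∑ w, (y a w) ^ 2) ≤
      ∑ a, ∑ b, ∑ w, x a w * y b (w + τ a b) := by
  have h1 := Finset.sum_le_sum fun (χ : X) (_ : χ ∈ (univ : Finset X)) => h χ
  have h2 : ∑ χ, -(Λ / 2) * (∑ a, (hat p (x a) χ) ^ 2 + ∑ a, (hat p (y a) χ) ^ 2) =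
      Fintype.card X * (-(Λ / 2) * (∑ a, ∑ w, (x a w) ^ 2 + ∑ a, ∑ w, (y a w) ^ 2)) := by
    rw [← Finset.mul_sum, Finset.sum_add_distrib, Finset.sum_comm (γ := X) (α := I),
      Finset.sum_comm (γ := X) (α := I), Finset.sum_congr rfl fun a _ => parseval p (x a),
      Finset.sum_congr rfl fun a _ => parseval p (y a), ← Finset.mul_sum, ← Finset.mul_sum]
    ring
  have h3 : ∑ χ, ∑ a, ∑ b, hat p (x a) χ * hat p (y b) χ * p.P χ (τ a b) =
      Fintype.card X * ∑ a, ∑ b, ∑ w, x a w * y b (w + τ a b) := by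
    rw [Finset.sum_comm, Finset.mul_sum]
    refine Finset.sum_congr rfl fun a _ => ?_
    rw [Finset.sum_comm, Finset.mul_sum]
    refine Finset.sum_congr rfl fun b _ => ?_
    exact corr p (x a) (y b) (τ a b)
  rw [h2, h3] at h1
  exact le_of_mul_le_mul_left h1 (by exact_mod_cast hX)

end Pool.Agent.G7.H49
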