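import Pool.Agent.Helper49_G7.Chr
import Pool.Agent.Helper49_G7.Four

/-!
# The bilinear forms over a finite field of characteristic two
-/

set_option autoImplicit false

namespace Pool.Agent.G7.H49

open Finset

variable {F : Type} [Field F] [Fintype F] [DecidableEq F] [CharP F 2]

/-- the form -/
def BB (β γ ζ a b : F) : F := β * (a * b ^ 2) + γ * (a ^ 2 * b) + ζ * (a ^ 4 * b + a * b ^ 4)

/-- the linearised polynomial of its radical -/
def LL (β γ ζ d : F) : F := β ^ 2 * d ^ 2 + γ ^ 4 * d ^ 8 + ζ ^ 4 * d ^ 16 + ζ * d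

omit [Fintype F] [DecidableEq F] in
theorem BB_add (β γ ζ a a' b : F) : BB β γ ζ a b + BB β γ ζ a' b = BB β γ ζ (a + a') b := by
  have h2 : (2 : F) = 0 := CharTwo.two_eq_zero
  unfold BB
  grind

omit [DecidableEq F] [CharP F 2] in
theorem ψ_BB (t : TrChar F) (β γ ζ d b : F) :
    t.ψ (BB β γ ζ d b) = t.ψ (LL β γ ζ d * b ^ 4) := by
  unfold BB LL
  rw [mul_add ζ, t.add, t.add, t.add, ← t.sq (β * (d * b ^ 2)), ← t.pow4 (γ * (d ^ 2 * b)),
    ← t.pow4 (ζ * (d ^ 4 * b)), ← t.add, ← t.add, ← t.add]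
  congr 1
  ring

omit [DecidableEq F] in
theorem pow4_bij : Function.Bijective (fun b : F => b ^ 4) := by
  rw [← Finite.injective_iff_bijective]
  intro b c h
  have h1 : b ^ 4 = c ^ 4 := h
  have h2 : (2 : F) = 0 := CharTwo.two_eq_zero
  have h3 : (b - c) ^ 4 = 0 := by grind
  exact sub_eq_zero.1 (pow_eq_zero_iff (by norm_num) |>.1 h3)

theorem sum_BB (t : TrChar F) (β γ ζ d : F) :
    ∑ b, t.ψ (BB β γ ζ d b) = if LL β γ ζ d = 0 then (Fintype.card F : ℝ) else 0 := by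
  rw [← t.sum' (LL β γ ζ d), Finset.sum_congr rfl fun b _ => ψ_BB t β γ ζ d b]
  exact Function.Bijective.sum_comp pow4_bij (fun y => t.ψ (LL β γ ζ d * y))

omit [CharP F 2] in
theorem card_LL {β γ ζ : F} (h : β ≠ 0 ∨ γ ≠ 0 ∨ ζ ≠ 0) :
    (univ.filter (fun d : F => LL β γ ζ d = 0)).card ≤ 16 := by
  obtain ⟨p, hp⟩ : ∃ p : Polynomial F, p = Polynomial.C (β ^ 2) * Polynomial.X ^ 2 +
    Polynomial.C (γ ^ 4) * Polynomial.X ^ 8 + Polynomial.C (ζ ^ 4) * Polynomial.X ^ 16 +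
    Polynomial.C ζ * Polynomial.X := ⟨_, rfl⟩
  have hdeg : p.natDegree ≤ 16 := by
    rw [hp]
    compute_degree
  have hne : p ≠ 0 := by
    intro h0
    have c2 : p.coeff 2 = β ^ 2 := by
      rw [hp]
      simp only [Polynomial.coeff_add, Polynomial.coeff_C_mul, Polynomial.coeff_X_pow,
        Polynomial.coeff_X]
      norm_num
    have c8 : p.coeff 8 = γ ^ 4 := by
      rw [hp]
      simp only [Polynomial.coeff_add, Polynomial.coeff_C_mul, Polynomial.coeff_X_pow,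
        Polynomial.coeff_X]
      norm_num
    have c16 : p.coeff 16 = ζ ^ 4 := by
      rw [hp]
      simp only [Polynomial.coeff_add, Polynomial.coeff_C_mul, Polynomial.coeff_X_pow,
        Polynomial.coeff_X]
      norm_num
    rw [h0, Polynomial.coeff_zero] at c2 c8 c16
    rcases h with h | h | h
    · exact h (pow_eq_zero_iff (by norm_num) |>.1 c2.symm)
    · exact h (pow_eq_zero_iff (by norm_num) |>.1 c8.symm)
    · exact h (pow_eq_zero_iff (by norm_num) |>.1 c16.symm)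
  have hsub : (univ.filter (fun d : F => LL β γ ζ d = 0)) ⊆ p.roots.toFinset := by
    intro d hd
    rw [mem_filter] at hd
    rw [Multiset.mem_toFinset, Polynomial.mem_roots hne, Polynomial.IsRoot.def, hp]
    simp only [Polynomial.eval_add, Polynomial.eval_mul, Polynomial.eval_C, Polynomial.eval_pow,
      Polynomial.eval_X]
    exact hd.2
  calc _ ≤ p.roots.toFinset.card := Finset.card_le_card hsub
    _ ≤ Multiset.card p.roots := Multiset.toFinset_card_le _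
    _ ≤ p.natDegree := Polynomial.card_roots' p
    _ ≤ 16 := hdeg

theorem sum_T (t : TrChar F) {β γ ζ : F} (h : β ≠ 0 ∨ γ ≠ 0 ∨ ζ ≠ 0) (f : F → ℝ) :
    ∑ b, (∑ a, f a * t.ψ (BB β γ ζ a b)) ^ 2 ≤ 16 * Fintype.card F * ∑ a, (f a) ^ 2 := by
  obtain ⟨S, hS⟩ : ∃ S : F → ℝ, S = fun d => ∑ b, t.ψ (BB β γ ζ d b) := ⟨_, rfl⟩
  have hS' : ∀ d, S d = ∑ b, t.ψ (BB β γ ζ d b) := fun d => by rw [hS]
  have hS0 : ∀ d, 0 ≤ S d := by
    intro d
    rw [hS', sum_BB]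
    split
    · positivity
    · exact le_rfl
  have hSum : ∑ d, S d ≤ 16 * Fintype.card F := by
    rw [Finset.sum_congr rfl fun d _ => (hS' d).trans (sum_BB t β γ ζ d), ← Finset.sum_filter,
      Finset.sum_const, nsmul_eq_mul]
    have h1 : ((univ.filter (fun d : F => LL β γ ζ d = 0)).card : ℝ) ≤ 16 := by
      exact_mod_cast card_LL h
    exact mul_le_mul_of_nonneg_right h1 (by positivity)
  have h1 : ∑ b, (∑ a, f a * t.ψ (BB β γ ζ a b)) ^ 2 = ∑ a, ∑ a', f a * f a' * S (a + a') := by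
    have h2 : ∀ b, (∑ a, f a * t.ψ (BB β γ ζ a b)) ^ 2 =
        ∑ a, ∑ a', f a * f a' * t.ψ (BB β γ ζ (a + a') b) := by
      intro b
      rw [pow_two, Finset.sum_mul_sum]
      refine Finset.sum_congr rfl fun a _ => Finset.sum_congr rfl fun a' _ => ?_
      rw [← BB_add, t.add]
      ring
    rw [Finset.sum_congr rfl fun b _ => h2 b, Finset.sum_comm]
    refine Finset.sum_congr rfl fun a _ => ?_
    rw [Finset.sum_comm]
    refine Finset.sum_congr rfl fun a' _ => ?_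
    rw [hS', Finset.mul_sum]
  have h3 : ∑ a, ∑ a', f a * f a' * S (a + a') ≤
      ∑ a, ∑ a', ((f a) ^ 2 / 2 * S (a + a') + (f a') ^ 2 / 2 * S (a + a')) := by
    refine Finset.sum_le_sum fun a _ => Finset.sum_le_sum fun a' _ => ?_
    have h4 : f a * f a' ≤ (f a) ^ 2 / 2 + (f a') ^ 2 / 2 := by
      nlinarith [sq_nonneg (f a - f a')]
    calc f a * f a' * S (a + a') ≤ ((f a) ^ 2 / 2 + (f a') ^ 2 / 2) * S (a + a') :=
          mul_le_mul_of_nonneg_right h4 (hS0 _)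
      _ = _ := by ring
  have h5 : ∀ a : F, ∑ a', S (a + a') = ∑ d, S d := fun a =>
    Equiv.sum_comp (Equiv.addLeft a) S
  have h6 : ∑ a, ∑ a', (f a) ^ 2 / 2 * S (a + a') = (∑ a, (f a) ^ 2) / 2 * ∑ d, S d := by
    rw [Finset.sum_div, Finset.sum_mul]
    refine Finset.sum_congr rfl fun a _ => ?_
    rw [← Finset.mul_sum, h5]
  have h7 : ∑ a, ∑ a', (f a') ^ 2 / 2 * S (a + a') = (∑ a, (f a) ^ 2) / 2 * ∑ d, S d := by
    rw [Finset.sum_comm, ← h6]
    refine Finset.sum_congr rfl fun a _ => Finset.sum_congr rfl fun a' _ => ?_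
    rw [add_comm]
  have h8 : ∑ a, ∑ a', ((f a) ^ 2 / 2 * S (a + a') + (f a') ^ 2 / 2 * S (a + a')) =
      (∑ a, (f a) ^ 2) * ∑ d, S d := by
    simp only [Finset.sum_add_distrib]
    rw [h6, h7]
    ring
  rw [h1]
  refine h3.trans ?_
  rw [h8, mul_comm]
  exact mul_le_mul_of_nonneg_right hSum (Finset.sum_nonneg fun a _ => sq_nonneg _)

theorem form_lower (t : TrChar F) {β γ ζ : F} (h : β ≠ 0 ∨ γ ≠ 0 ∨ ζ ≠ 0) (f g : F → ℝ) (Λ : ℝ)
    (hΛ : 0 < Λ) (hΛ2 : Λ ^ 2 = 16 * Fintype.card F) :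
    -(Λ / 2) * (∑ a, (f a) ^ 2 + ∑ a, (g a) ^ 2) ≤
      ∑ a, ∑ b, f a * g b * t.ψ (BB β γ ζ a b) := by
  obtain ⟨T, hT⟩ : ∃ T : F → ℝ, T = fun b => ∑ a, f a * t.ψ (BB β γ ζ a b) := ⟨_, rfl⟩
  have hT' : ∀ b, T b = ∑ a, f a * t.ψ (BB β γ ζ a b) := fun b => by rw [hT]
  have h1 : ∑ a, ∑ b, f a * g b * t.ψ (BB β γ ζ a b) = ∑ b, g b * T b := by
    rw [Finset.sum_comm]
    refine Finset.sum_congr rfl fun b _ => ?_
    rw [hT', Finset.mul_sum]
    refine Finset.sum_congr rfl fun a _ => ?_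
    ring
  have h2 : ∑ b, (T b) ^ 2 ≤ Λ ^ 2 * ∑ a, (f a) ^ 2 := by
    rw [hΛ2, hT]
    exact sum_T t h f
  have h3 : ∀ b, -(Λ / 2) * (g b) ^ 2 - (T b) ^ 2 / (2 * Λ) ≤ g b * T b := by
    intro b
    have h4 : 0 ≤ (Λ * g b + T b) ^ 2 / (2 * Λ) := by positivity
    have h5 : (Λ * g b + T b) ^ 2 / (2 * Λ) =
        Λ / 2 * (g b) ^ 2 + g b * T b + (T b) ^ 2 / (2 * Λ) := by
      field_simp
      ring
    linarith
  have h6 := Finset.sum_le_sum fun (b : F) (_ : b ∈ (univ : Finset F)) => h3 b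
  rw [Finset.sum_sub_distrib, ← Finset.mul_sum, ← Finset.sum_div] at h6
  have h7 : (∑ b, (T b) ^ 2) / (2 * Λ) ≤ Λ / 2 * ∑ a, (f a) ^ 2 := by
    rw [div_le_iff₀ (by positivity)]
    calc _ ≤ Λ ^ 2 * ∑ a, (f a) ^ 2 := h2
      _ = _ := by ring
  rw [h1]
  linarith

/-- the pairing of `F³` with itself -/
noncomputable def pair (t : TrChar F) : Pairing (F × F × F) (F × F × F) where
  P χ w := t.ψ (χ.1 * w.1 + χ.2.1 * w.2.1 + χ.2.2 * w.2.2)
  add χ v w := by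
    rw [← t.add]
    congr 1
    simp only [Prod.fst_add, Prod.snd_add]
    ring
  sum w := by
    have h1 : ∀ χ : F × F × F, t.ψ (χ.1 * w.1 + χ.2.1 * w.2.1 + χ.2.2 * w.2.2) =
        t.ψ (w.1 * χ.1) * (t.ψ (w.2.1 * χ.2.1) * t.ψ (w.2.2 * χ.2.2)) := by
      intro χ
      rw [t.add, t.add, mul_comm χ.1, mul_comm χ.2.1, mul_comm χ.2.2]
      ring
    rw [Finset.sum_congr rfl fun χ _ => h1 χ, Fintype.sum_prod_type]
    simp only
    have h2 : ∀ x : F, ∑ y : F × F, t.ψ (w.1 * x) * (t.ψ (w.2.1 * y.1) * t.ψ (w.2.2 * y.2)) =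
        t.ψ (w.1 * x) * ((∑ y, t.ψ (w.2.1 * y)) * ∑ z, t.ψ (w.2.2 * z)) := by
      intro x
      rw [← Finset.mul_sum, Fintype.sum_prod_type, Finset.sum_mul_sum]
    rw [Finset.sum_congr rfl fun x _ => h2 x, ← Finset.sum_mul, t.sum', t.sum', t.sum']
    obtain ⟨w1, w2, w3⟩ := w
    simp only [Prod.mk_eq_zero, Fintype.card_prod, Nat.cast_mul]
    by_cases e1 : w1 = 0 <;> by_cases e2 : w2 = 0 <;> by_cases e3 : w3 = 0 <;>
      simp [e1, e2, e3]
  two w := by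
    refine Prod.ext ?_ (Prod.ext ?_ ?_)
    · exact CharTwo.add_self_eq_zero _
    · exact CharTwo.add_self_eq_zero _
    · exact CharTwo.add_self_eq_zero _

omit [DecidableEq F] in
/-- the value of the pairing at the shift of the graph -/
theorem ψ_shift (t : TrChar F) (β γ ζ a b : F) :
    t.ψ (β * (a * b ^ 2) + γ * (a ^ 2 * b) + ζ * (a + b) ^ 5) =
      t.ψ (ζ * a ^ 5) * t.ψ (ζ * b ^ 5) * t.ψ (BB β γ ζ a b) := by
  rw [← t.add, ← t.add]
  congr 1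
  have h2 : (2 : F) = 0 := CharTwo.two_eq_zero
  unfold BB
  grind

theorem twisted_lower (t : TrChar F) {β γ ζ : F} (h : β ≠ 0 ∨ γ ≠ 0 ∨ ζ ≠ 0) (f g : F → ℝ)
    (Λ : ℝ) (hΛ : 0 < Λ) (hΛ2 : Λ ^ 2 = 16 * Fintype.card F) :
    -(Λ / 2) * (∑ a, (f a) ^ 2 + ∑ a, (g a) ^ 2) ≤
      ∑ a, ∑ b, f a * g b * t.ψ (β * (a * b ^ 2) + γ * (a ^ 2 * b) + ζ * (a + b) ^ 5) := by
  have h1 := form_lower t h (fun a => f a * t.ψ (ζ * a ^ 5)) (fun b => g b * t.ψ (ζ * b ^ 5)) Λ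
    hΛ hΛ2
  have h2 : ∀ (u : F → ℝ) (a : F), (u a * t.ψ (ζ * a ^ 5)) ^ 2 = (u a) ^ 2 := by
    intro u a
    rw [mul_pow, t.sq_eq, mul_one]
  simp only [h2] at h1
  refine h1.trans (le_of_eq ?_)
  refine Finset.sum_congr rfl fun a _ => Finset.sum_congr rfl fun b _ => ?_
  rw [ψ_shift]
  ring

end Pool.Agent.G7.H49
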