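import Mathlib

/-!
# The trace character of a finite field of characteristic two
-/

set_option autoImplicit false

namespace Pool.Agent.G7.H49

open Finset

/-- The properties of the function `(-1) ^ Tr`. -/
structure TrChar (F : Type) [Field F] [Fintype F] where
  ψ : F → ℝ
  add : ∀ x y, ψ (x + y) = ψ x * ψ y
  val : ∀ x, ψ x = 1 ∨ ψ x = -1
  sq : ∀ x, ψ (x ^ 2) = ψ x
  sum : ∀ c : F, c ≠ 0 → ∑ x, ψ (c * x) = 0

theorem exists_trChar (F : Type) [Field F] [Fintype F] [CharP F 2] : Nonempty (TrChar F) := by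
  classical
  let _ : Algebra (ZMod 2) F := ZMod.algebra F 2
  have hcase : ∀ t : ZMod 2, t = 0 ∨ t = 1 := by decide
  let ψ : F → ℝ := fun x => if Algebra.trace (ZMod 2) F x = 0 then 1 else -1
  have hψ : ∀ x, ψ x = if Algebra.trace (ZMod 2) F x = 0 then 1 else -1 := fun x => rfl
  have hadd : ∀ x y, ψ (x + y) = ψ x * ψ y := by
    intro x y
    rw [hψ, hψ, hψ, map_add]
    rcases hcase (Algebra.trace (ZMod 2) F x) with h1 | h1 <;>
    rcases hcase (Algebra.trace (ZMod 2) F y) with h2 | h2 <;>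
    rw [h1, h2] <;> norm_num
    decide
  have hval : ∀ x, ψ x = 1 ∨ ψ x = -1 := by
    intro x
    rw [hψ]
    split
    · exact Or.inl rfl
    · exact Or.inr rfl
  refine ⟨⟨ψ, hadd, hval, ?_, ?_⟩⟩
  · intro x
    have h1 := Algebra.trace_eq_of_algEquiv
      (FiniteField.frobeniusAlgEquivOfAlgebraic (ZMod 2) F) x
    rw [FiniteField.coe_frobeniusAlgEquivOfAlgebraic, ZMod.card] at h1
    rw [hψ, hψ, h1]
  · intro c hc
    have hnd := traceForm_nondegenerate (ZMod 2) F
    obtain ⟨b, hb⟩ : ∃ b : F, Algebra.trace (ZMod 2) F (c * b) ≠ 0 := by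
      by_contra hcon
      push Not at hcon
      apply hc
      exact hnd.1 c (fun b => hcon b)
    have h2 : ψ (c * b) = -1 := by rw [hψ, if_neg hb]
    have h3 : ∑ x, ψ (c * x) = ∑ x, ψ (c * (x + b)) :=
      (Equiv.sum_comp (Equiv.addRight b) (fun x => ψ (c * x))).symm
    have h4 : ∑ x, ψ (c * (x + b)) = -∑ x, ψ (c * x) := by
      rw [← Finset.sum_neg_distrib]
      refine Finset.sum_congr rfl fun x _ => ?_
      rw [mul_add, hadd, h2]
      ring
    linarith

namespace TrChar

variable {F : Type} [Field F] [Fintype F] (t : TrChar F)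

theorem mul_self (x : F) : t.ψ x * t.ψ x = 1 := by
  rcases t.val x with h | h <;> rw [h] <;> norm_num

theorem sq_eq (x : F) : t.ψ x ^ 2 = 1 := by rw [pow_two, t.mul_self]

theorem zero : t.ψ 0 = 1 := by
  have h1 := t.add 0 0
  rw [add_zero] at h1
  rcases t.val 0 with h | h
  · exact h
  · rw [h] at h1
    norm_num at h1

theorem pow4 (x : F) : t.ψ (x ^ 4) = t.ψ x := by
  have : x ^ 4 = (x ^ 2) ^ 2 := by ring
  rw [this, t.sq, t.sq]

theorem sum' (c : F) [Decidable (c = 0)] :
    ∑ x, t.ψ (c * x) = if c = 0 then (Fintype.card F : ℝ) else 0 := by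
  split
  · next h =>
    rw [h]
    simp only [zero_mul, t.zero, sum_const, card_univ, nsmul_eq_mul, mul_one]
  · next h => exact t.sum c h

end TrChar

end Pool.Agent.G7.H49
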